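import Pool.Agent.Q283.PM.TaskNewton
import Pool.Agent.Q283.PM.TaskPow
import Pool.Agent.Q283.PM.TaskInjTwo

/-!
# Injectivity of `E_2` on the partitions of `n`
-/

namespace Pool.Agent.Results.MP_46a37f_co.InjectivityTwo

open Pool.Agent.Q283.PM

/-- Two partitions of `n` with the same products of two parts (with multiplicity) are equal. -/
theorem result (n : ℕ) (l l' : n.Partition) (he : E 2 l.parts = E 2 l'.parts) : l = l' := by
  have h0 : ∀ m : n.Partition, 0 ∉ m.parts := fun m h => absurd (m.parts_pos h) (lt_irrefl 0)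
  refine Nat.Partition.ext (TaskInjTwo.main TaskNewton.main TaskPow.main l.parts l'.parts
    (h0 l) (h0 l') ?_ he)
  rw [l.parts_sum, l'.parts_sum]

end Pool.Agent.Results.MP_46a37f_co.InjectivityTwo
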