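import Pool.Agent.Q283.PM.Asm
import Pool.Agent.Q283.PM.TaskRem
import Pool.Agent.Q283.PM.TaskIter
import Pool.Agent.Q283.PM.TaskCons
import Pool.Agent.Q283.PM.TaskOne
import Pool.Agent.Q283.PM.TaskPrime
import Pool.Agent.Q283.PM.TaskPQ
import Pool.Agent.Q283.PM.TaskPP
import Pool.Agent.Q283.PM.TaskFiltA
import Pool.Agent.Q283.PM.TaskFiltB
import Pool.Agent.Q283.PM.TaskInj
import Pool.Agent.Q283.PM.TaskNewton
import Pool.Agent.Q283.PM.TaskPow
import Pool.Agent.Q283.PM.TaskInjTwo
import Pool.Agent.Q283.PM.TaskSet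

/-!
# Multiplicity identities for elementary symmetric partitions

All six equalities hold for `k = 2` (and all `n`, `p`), and the equality for `p = 1` and the primes
holds for all `k ≥ 2`. The lemmas in `Pool/Agent/Q283/PM` were proved by members of the team.
-/

namespace Pool.Agent.Results.MP_46a37f_co.SecondSymmetric

open Pool.Agent.Q283.PM Pool.Agent.Q283.PM.Asm

theorem hOne (k : ℕ) (s : Multiset ℕ) (h : 0 ∉ s) : (E k s).count 1 = (s.count 1).choose k :=
  TaskOne.main TaskCons.main k s h

theorem hPrime (k p : ℕ) (s : Multiset ℕ) (hp : p.Prime) (h : 0 ∉ s) :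
    (E (k + 1) s).count p = s.count p * (s.count 1).choose k :=
  TaskPrime.main TaskCons.main TaskOne.main k p s hp h

theorem zero_notMem {n : ℕ} (l : n.Partition) : 0 ∉ l.parts :=
  fun h0 => absurd (l.parts_pos h0) (lt_irrefl 0)

/-- The sum over the image set is the sum over all partitions for `p = 1` or `p` prime. -/
theorem R_prime (k p n : ℕ) (hp : p = 1 ∨ p.Prime) :
    R (k + 1) p n = W (fun s => ((E (k + 1) s).count p : ℤ)) n := by
  refine TaskSet.main (k + 1) p n (fun l l' he hj => ?_)
  have key : ∀ m : n.Partition, p ∈ E (k + 1) m.parts → k ≤ m.parts.count 1 := by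
    intro m hm
    have h1 := Multiset.count_pos.mpr hm
    by_contra hlt
    rw [not_le] at hlt
    rcases hp with rfl | hp
    · rw [hOne (k + 1) m.parts (zero_notMem m), Nat.choose_eq_zero_of_lt (by omega)] at h1
      omega
    · rw [hPrime k p m.parts hp (zero_notMem m), Nat.choose_eq_zero_of_lt hlt] at h1
      omega
  have hs := TaskInj.main TaskOne.main TaskFiltB.main
    k l.parts l'.parts (zero_notMem l) (zero_notMem l') (key l hj) (key l' (he ▸ hj)) he
  exact Nat.Partition.ext hs

/-- `E_2` is injective on the partitions of `n`. -/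
theorem inj_two (n : ℕ) (l l' : n.Partition) (he : E 2 l.parts = E 2 l'.parts) : l = l' := by
  refine Nat.Partition.ext (TaskInjTwo.main TaskNewton.main TaskPow.main l.parts l'.parts
    (zero_notMem l) (zero_notMem l') ?_ he)
  rw [l.parts_sum, l'.parts_sum]

/-- The sum over the image set is the sum over all partitions for `k = 2`. -/
theorem R_two (j n : ℕ) : R 2 j n = W (fun s => ((E 2 s).count j : ℤ)) n :=
  TaskSet.main 2 j n (fun l l' he _ => inj_two n l l' he)

theorem five (k n : ℕ) (hk : 2 ≤ k) : Five (fun j m => W (fun s => ((E k s).count j : ℤ)) m) k n :=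
  fiveAll TaskRem.main TaskIter.main
    (TaskPQ.main TaskCons.main TaskOne.main TaskPrime.main)
    (TaskPP.main TaskCons.main TaskOne.main TaskPrime.main)
    k n hk

theorem sixth (k n p : ℕ) (hp : p = 1 ∨ p.Prime) :
    (fwdDiff (1 : ℕ))^[k] (W (fun s => ((E (k + 1) s).count p : ℤ))) n = N p n := by
  rcases hp with rfl | hp
  · exact wOne TaskRem.main TaskIter.main hOne k n
  · exact wPrime TaskRem.main TaskIter.main hPrime k n p hp

/-- (1) For all `k ≥ 2`, `n ≥ 0` and `p = 1` or `p` prime the sixth equality holds. (2) For `k = 2`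
and all `n ≥ 0` the first five equalities hold. -/
theorem result :
    (∀ k n p : ℕ, 2 ≤ k → (p = 1 ∨ p.Prime) → Sixth (R k) k n p) ∧
    (∀ n : ℕ, Five (R 2) 2 n) := by
  refine ⟨?_, ?_⟩
  · intro k n p hk hp
    obtain ⟨k, rfl⟩ := Nat.exists_eq_add_of_le' hk
    have h1 : R (k + 2) p = W (fun s => ((E (k + 2) s).count p : ℤ)) := by
      funext m
      exact R_prime (k + 1) p m hp
    show (fwdDiff (1 : ℕ))^[k + 1] (R (k + 2) p) n = N p n
    rw [h1]
    exact sixth (k + 1) n p hp
  · intro n
    have h1 : R 2 = fun j m => W (fun s => ((E 2 s).count j : ℤ)) m := by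
      funext j m
      exact R_two j m
    rw [h1]
    exact five 2 n le_rfl

end Pool.Agent.Results.MP_46a37f_co.SecondSymmetric
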